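import Mathlib

set_option autoImplicit false

namespace Pool.Agent.Results.MP_6623a1_co.Exact

open Finset

/-- unique multiset sums. -/
def UMS {G : Type} [AddCommGroup G] {n : ℕ} (g : Fin n → G) : Prop :=
  ∀ k : Fin n → ℕ, ∑ j, k j = n → ∑ j, k j • g j = ∑ j, g j → k = fun _ => 1

theorem lower {G : Type} [AddCommGroup G] [Fintype G] {n : ℕ} (g : Fin (n + 1) → G)
    (h : UMS g) : 2 ^ n ≤ Fintype.card G := by
  have key : ∀ I J : Finset (Fin n), I.card ≤ J.card →
      ∑ i ∈ I, (g i.succ - g 0) = ∑ i ∈ J, (g i.succ - g 0) → I = J := by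
    intro I J hc e
    have hk := h (Fin.cons (1 + (J.card - I.card))
      fun i => (if i ∈ I then 1 else 0) + (if i ∈ Jᶜ then 1 else 0)) (by
        rw [Fin.sum_univ_succ]
        simp only [Fin.cons_zero, Fin.cons_succ, Finset.sum_add_distrib, Finset.sum_ite_mem,
          univ_inter, sum_const, smul_eq_mul, mul_one, Finset.card_compl, Fintype.card_fin]
        have := Finset.card_le_univ J
        rw [Fintype.card_fin] at this
        omega) (by
        rw [Fin.sum_univ_succ, Fin.sum_univ_succ]
        simp only [Fin.cons_zero, Fin.cons_succ, add_smul, Finset.sum_add_distrib, ite_smul,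
          one_smul, zero_smul, Finset.sum_ite_mem, univ_inter]
        rw [← Finset.sum_add_sum_compl J (fun i => g i.succ)]
        simp only [Finset.sum_sub_distrib, sum_const] at e
        obtain ⟨d, hd⟩ := Nat.exists_eq_add_of_le hc
        rw [hd, add_smul] at e
        rw [hd, Nat.add_sub_cancel_left]
        rw [sub_eq_iff_eq_add] at e
        rw [e]
        abel)
    ext i
    have := congrFun hk i.succ
    simp only [Fin.cons_succ, mem_compl] at this
    by_cases h1 : i ∈ I <;> by_cases h2 : i ∈ J <;> simp_all
  have hinj : Function.Injective fun I : Finset (Fin n) => ∑ i ∈ I, (g i.succ - g 0) := by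
    intro I J e
    rcases le_total I.card J.card with hc | hc
    · exact key I J hc e
    · exact (key J I hc e.symm).symm
  simpa using Fintype.card_le_of_injective _ hinj

theorem upper (n : ℕ) : UMS (Fin.cons 0 fun i => Pi.single i 1 : Fin (n + 1) → Fin n → ZMod 2) := by
  intro k h1 h2
  rw [Fin.sum_univ_succ] at h1
  rw [Fin.sum_univ_succ, Fin.sum_univ_succ] at h2
  have hodd : ∀ i : Fin n, 1 ≤ k i.succ := by
    intro i
    have := congrFun h2 i
    simp only [Fin.cons_zero, Fin.cons_succ, smul_zero, zero_add, Finset.sum_apply, Pi.smul_apply,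
      Pi.single_apply, smul_ite, Finset.sum_ite_eq, mem_univ, if_true] at this
    by_contra hc
    rw [show k i.succ = 0 by omega] at this
    exact absurd this (by decide)
  have hodd2 : ∀ i : Fin n, k i.succ % 2 = 1 := by
    intro i
    have := congrFun h2 i
    simp only [Fin.cons_zero, Fin.cons_succ, smul_zero, zero_add, Finset.sum_apply, Pi.smul_apply,
      Pi.single_apply, smul_ite, Finset.sum_ite_eq, mem_univ, if_true] at this
    rw [nsmul_eq_mul, mul_one] at this
    exact (ZMod.natCast_eq_natCast_iff' _ 1 2).1 (by simpa using this)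
  have hall : ∀ i : Fin n, k i.succ = 1 := by
    intro i
    by_contra hc
    have e1 := Finset.add_sum_erase univ (fun j : Fin n => k j.succ) (mem_univ i)
    have e2 := Finset.card_nsmul_le_sum (univ.erase i) (fun j : Fin n => k j.succ) 1
      (fun j _ => hodd j)
    rw [Finset.card_erase_of_mem (mem_univ i), card_univ, Fintype.card_fin, smul_eq_mul] at e2
    have := hodd2 i
    have := i.2
    omega
  simp only [hall, sum_const, card_univ, Fintype.card_fin, smul_eq_mul] at h1
  funext j
  refine Fin.cases ?_ hall j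
  omega

/-- `m(n) = 2 ^ (n - 1)`. -/
theorem result (n : ℕ) (hn : 1 ≤ n) :
    IsLeast {N : ℕ | ∃ (G : Type) (_ : AddCommGroup G) (_ : Fintype G) (g : Fin n → G),
      Fintype.card G = N ∧ UMS g} (2 ^ (n - 1)) := by
  obtain ⟨n, rfl⟩ : ∃ m, n = m + 1 := ⟨n - 1, by omega⟩
  constructor
  · exact ⟨Fin n → ZMod 2, inferInstance, inferInstance, _, by simp, upper n⟩
  · rintro N ⟨G, _, _, g, rfl, h⟩
    exact lower g h

end Pool.Agent.Results.MP_6623a1_co.Exact
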